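import Pool.Agent.helper60.EPT.Spec

/-!
MP_2b48c2, project EPT, row DRP: drop and take
-/

set_option autoImplicit false

namespace Pool.Agent.EPT

open D

/-- the iterates of `snd` -/
theorem DRP_snd (k : ℕ) (y : D) : D.snd^[k] y = ofList (y.toList.drop k) := by
  induction k generalizing y with
  | zero => simp
  | succ k ih =>
    rw [Function.iterate_succ_apply, ih]
    cases y with
    | nil => simp
    | cons a b => simp

theorem DRP_snds (k : ℕ) (y : D) : (D.snd^[k] y).size ≤ y.size := by
  induction k generalizing y with
  | zero => exact le_rfl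
  | succ k ih =>
    rw [Function.iterate_succ_apply]
    exact (ih _).trans (size_snd y)

/-- one step of take -/
def DRP_st (s : D) : D := if s.fst = nil then s else cons s.fst.snd (cons s.fst.fst s.snd)

theorem DRP_iter (k : ℕ) : ∀ L R : List D,
    DRP_st^[k] (cons (ofList L) (ofList R)) = cons (ofList (L.drop k)) (ofList ((L.take k).reverse ++ R)) := by
  induction k with
  | zero => intro L R; simp
  | succ k ih =>
    intro L R
    rw [Function.iterate_succ_apply]
    cases L with
    | nil =>
      have h1 : DRP_st (cons (ofList []) (ofList R)) = cons (ofList []) (ofList R) := by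
        simp [DRP_st]
      rw [h1, ih]
      simp
    | cons a L =>
      have h1 : DRP_st (cons (ofList (a :: L)) (ofList R)) = cons (ofList L) (ofList (a :: R)) := by
        simp [DRP_st]
      rw [h1, ih]
      simp

theorem DRP_size (k : ℕ) (L : List D) :
    (cons (ofList (L.drop k)) (ofList ((L.take k).reverse ++ []))).size = (ofList L).size + 2 := by
  rw [List.append_nil, size_cons, size_ofList, size_ofList, size_ofList, List.map_reverse, List.sum_reverse, List.length_reverse]
  have h1 : ((L.take k).map size).sum + ((L.drop k).map size).sum = (L.map size).sum := by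
    rw [← List.sum_append, ← List.map_append, List.take_append_drop]
  have h2 : (L.take k).length + (L.drop k).length = L.length := by
    rw [← List.length_append, List.take_append_drop]
  omega

theorem DRP_ar (n c : ℕ) (hn : 1 ≤ n) : (n + c) ^ c + 2 ≤ (n + (c + 2)) ^ (c + 2) := by
  have h1 : 1 ≤ (n + c) ^ c := Nat.one_le_pow _ _ (by omega)
  have h2 : (n + c) ^ c ≤ (n + (c + 2)) ^ c := Nat.pow_le_pow_left (by omega) c
  have h3 : 2 ^ 2 ≤ (n + (c + 2)) ^ 2 := Nat.pow_le_pow_left (by omega) 2
  calc (n + c) ^ c + 2 ≤ (n + c) ^ c * 2 ^ 2 := by omega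
    _ ≤ (n + (c + 2)) ^ c * (n + (c + 2)) ^ 2 := Nat.mul_le_mul h2 h3
    _ = (n + (c + 2)) ^ (c + 2) := (pow_add _ _ _).symm

theorem DRP (hC : Cal) (hREV : REV_stmt) : DRP_stmt := by
  intro n l hn hl
  obtain ⟨c, hc⟩ := hC.bound l hl
  refine ⟨?_, ?_⟩
  · have h := hC.iter D.snd n l (hC.snd _ hC.id) hn hl ⟨c, fun x i _ => (DRP_snds i (l x)).trans (hc x)⟩
    have heq : (fun x => ofList ((l x).toList.drop (n x).toList.length)) = fun x => D.snd^[(n x).toList.length] (l x) := by
      funext x
      rw [DRP_snd]
    rw [heq]
    exact h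
  · have hst : FP DRP_st :=
      hC.cond (fun s => s.fst) (fun s => cons s.fst.snd (cons s.fst.fst s.snd)) (fun s => s) (hC.fst _ hC.id)
        (hC.cons _ _ (hC.snd _ (hC.fst _ hC.id)) (hC.cons _ _ (hC.fst _ (hC.fst _ hC.id)) (hC.snd _ hC.id))) hC.id
    have h := hC.iter DRP_st n (fun x => cons (l x) nil) hst hn (hC.cons _ _ hl (hC.const nil))
      ⟨c + 2, fun x i _ => by
        have h1 := DRP_iter i (l x).toList []
        rw [ofList_toList, ofList_nil] at h1
        rw [h1, DRP_size, ofList_toList]
        exact (Nat.add_le_add_right (hc x) 2).trans (DRP_ar x.size c (size_pos x))⟩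
    have h2 := hC.comp (fun x => ofList x.toList.reverse) _ hREV.1 (hC.snd _ h)
    have heq : (fun x => ofList ((l x).toList.take (n x).toList.length)) =
        fun x => ofList ((DRP_st^[(n x).toList.length] (cons (l x) nil)).snd.toList.reverse) := by
      funext x
      have h1 := DRP_iter (n x).toList.length (l x).toList []
      rw [ofList_toList, ofList_nil] at h1
      rw [h1, snd_cons, toList_ofList, List.append_nil, List.reverse_reverse]
    rw [heq]
    exact h2

end Pool.Agent.EPT
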