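import Pool.Agent.helper60.EPT.Spec

/-!
MP_2b48c2, project EPT, row MAP: mapping a polynomial time function over a list
-/

set_option autoImplicit false

namespace Pool.Agent.EPT

open D

/-- polynomial bound -/
theorem MAP_ar (n A B c c1 c2 : ℕ) (hA : A ≤ (n + c1) ^ c1) (hB : B ≤ (n + c2) ^ c2) :
    A * (A + B + 1 + c) ^ c + A + 1 ≤
      (n + (c1 + c2 + c + 3 + (c1 + c2 + c + 4) * c + 1)) ^ (c1 + c2 + c + 3 + (c1 + c2 + c + 4) * c + 1) := by
  set K : ℕ := c1 + c2 + c + 3 with hK
  have hK4 : c1 + c2 + c + 4 = K + 1 := by omega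
  rw [hK4]
  set N : ℕ := n + K with hN
  have hN3 : 3 ≤ N := by omega
  have hN1 : 1 ≤ N := by omega
  have hA' : A ≤ N ^ K := hA.trans ((Nat.pow_le_pow_left (by omega) c1).trans (Nat.pow_le_pow_right hN1 (by omega)))
  have hB' : B ≤ N ^ K := hB.trans ((Nat.pow_le_pow_left (by omega) c2).trans (Nat.pow_le_pow_right hN1 (by omega)))
  have h1 : 1 + c ≤ N ^ K := (show 1 + c ≤ N by omega).trans (Nat.le_self_pow (by omega) N)
  have h2 : A + B + 1 + c ≤ N ^ (K + 1) := by
    calc A + B + 1 + c ≤ 3 * N ^ K := by omega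
      _ ≤ N * N ^ K := Nat.mul_le_mul_right _ hN3
      _ = N ^ (K + 1) := (pow_succ' N K).symm
  have h3 : (A + B + 1 + c) ^ c ≤ N ^ ((K + 1) * c) := by
    rw [pow_mul]
    exact Nat.pow_le_pow_left h2 c
  set M : ℕ := K + (K + 1) * c with hM
  have h4 : A * (A + B + 1 + c) ^ c ≤ N ^ M := by
    rw [hM, pow_add]
    exact Nat.mul_le_mul hA' h3
  have h5 : A ≤ N ^ M := hA'.trans (Nat.pow_le_pow_right hN1 (by omega))
  have h6 : 1 ≤ N ^ M := Nat.one_le_pow _ _ hN1
  calc A * (A + B + 1 + c) ^ c + A + 1 ≤ 3 * N ^ M := by omega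
    _ ≤ N * N ^ M := Nat.mul_le_mul_right _ hN3
    _ = N ^ (M + 1) := (pow_succ' N M).symm
    _ ≤ (n + (M + 1)) ^ (M + 1) := Nat.pow_le_pow_left (by omega) _

/-- the fold -/
theorem MAP_fold (F : D → D) (L : List D) : ∀ acc : D,
    L.foldl (fun acc h => cons (F h) acc) acc = ofList ((L.map F).reverse ++ acc.toList) := by
  induction L with
  | nil => intro acc; simp
  | cons a L ih =>
    intro acc
    rw [List.foldl_cons, ih]
    simp

/-- the size of the fold -/
theorem MAP_size (F : D → D) (S : ℕ) (L : List D) (h : ∀ a ∈ L, (F a).size ≤ S) :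
    (ofList (L.map F).reverse).size ≤ L.length * S + L.length + 1 := by
  rw [size_ofList, List.length_reverse, List.length_map]
  have h1 : (((L.map F).reverse).map size).sum ≤ L.length * S := by
    have h2 : ∀ y ∈ ((L.map F).reverse).map size, y ≤ S := by
      intro y hy
      rw [List.mem_map] at hy
      obtain ⟨z, hz, rfl⟩ := hy
      rw [List.mem_reverse, List.mem_map] at hz
      obtain ⟨a, ha, rfl⟩ := hz
      exact h a ha
    have h3 := List.sum_le_card_nsmul _ S h2
    rw [List.length_map, List.length_reverse, List.length_map, smul_eq_mul] at h3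
    exact h3
  omega

theorem MAP (hC : Cal) (hREV : REV_stmt) : MAP_stmt := by
  intro f l e hf hl he
  obtain ⟨c, hc⟩ := hC.bound f hf
  obtain ⟨c1, hc1⟩ := hC.bound l hl
  obtain ⟨c2, hc2⟩ := hC.bound e he
  have hf' : FP fun s => cons (f (cons s.snd.fst s.snd.snd)) s.fst :=
    hC.cons _ _ (hC.comp f (fun s => cons s.snd.fst s.snd.snd) hf
      (hC.cons _ _ (hC.fst _ (hC.snd _ hC.id)) (hC.snd _ (hC.snd _ hC.id)))) (hC.fst _ hC.id)
  have hfold := hC.fold (fun s => cons (f (cons s.snd.fst s.snd.snd)) s.fst) l e (fun _ => nil) hf' hl he (hC.const nil)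
    ⟨c1 + c2 + c + 3 + (c1 + c2 + c + 4) * c + 1, fun x L hL => by
      show (L.foldl (fun acc h => cons (f (cons h (e x))) acc) nil).size ≤ _
      rw [MAP_fold (fun h => f (cons h (e x))) L nil, toList_nil, List.append_nil]
      have hlen : L.length ≤ (l x).size := by
        have h1 := hL.length_le
        have h2 := length_le_size (l x)
        omega
      have hS : ∀ a ∈ L, (f (cons a (e x))).size ≤ ((l x).size + (e x).size + 1 + c) ^ c := by
        intro a ha
        refine (hc _).trans (Nat.pow_le_pow_left ?_ c)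
        have h1 := size_mem (l x) a (hL.subset ha)
        rw [size_cons]
        omega
      refine (MAP_size (fun h => f (cons h (e x))) _ L hS).trans (le_trans ?_ (MAP_ar x.size (l x).size (e x).size c c1 c2 (hc1 x) (hc2 x)))
      exact Nat.succ_le_succ (Nat.add_le_add (Nat.mul_le_mul_right _ hlen) hlen)⟩
  have h := hC.comp (fun x => ofList x.toList.reverse) _ hREV.1 hfold
  have heq : (fun x => ofList ((l x).toList.map fun a => f (cons a (e x)))) =
      fun x => ofList (((l x).toList.foldl (fun acc h => cons (f (cons h (e x))) acc) nil).toList.reverse) := by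
    funext x
    rw [MAP_fold (fun h => f (cons h (e x))) (l x).toList nil, toList_nil, List.append_nil, toList_ofList, List.reverse_reverse]
  rw [heq]
  exact h

end Pool.Agent.EPT
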